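import Pool.Agent.W555.ZL
import Pool.Agent.Q189.ZonMain
import Pool.Agent.Q98.LF.H3

/-!
# Schechtman's question on the vector balancing constant of zonotopes

`vb(K, K) ≤ C √d` for every zonotope `K` in `ℝ^d`: the zonotope is replaced by a zonotope with `O(d)`
segments (`Q189.ZonMain.iter`, `W555.ZL.vec`), and Spencer's theorem (`Q98.LF.hil_her'`) with the reduction of
any number of vectors to linear discrepancy (`Q98.SPN.lin_disc`) is applied to the coordinates.
-/

set_option autoImplicit false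

open Finset
open scoped RealInnerProductSpace

namespace Pool.Agent.K9h76.ZB

/-- Spencer's theorem for any number of vectors of the cube `[-1,1]^N`. -/
theorem spencer (N n : ℕ) (y : Fin n → Fin N → ℝ) (hy : ∀ i k, |y i k| ≤ 1) :
    ∃ ε : Fin n → ℝ, (∀ i, ε i = 1 ∨ ε i = -1) ∧
      ∀ k, |∑ i, ε i * y i k| ≤ 24960 * √(N : ℝ) := by
  classical
  have hb0 : (0 : ℝ) ≤ 12480 * √(N : ℝ) := by positivity
  obtain ⟨ε, h1, h2⟩ := Pool.Agent.Q98.SPN.lin_disc (V := Fin N → ℝ) (J := Fin n) y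
    (12480 * √(N : ℝ)) N
    (by
      intro S hS
      obtain ⟨ε, h1, h2⟩ := Pool.Agent.Q98.LF.hil_her' (H := ℝ) (N := N) (n := N) (m := n)
        (fun _ => 0) (fun _ => le_rfl) (by simp; linarith [Nat.cast_nonneg (α := ℝ) N])
        (fun k i => y i k) (fun k i => by simpa using hy i k) S hS
      refine ⟨ε, h1, ?_⟩
      rw [pi_norm_le_iff_of_nonneg hb0]
      intro k
      refine le_trans (le_of_eq ?_) (h2 k)
      congr 1
      rw [Finset.sum_apply]
      rfl)
    (Or.inr (by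
      refine (Submodule.finrank_le _).trans ?_
      simp)) (fun _ => 0) (fun _ => by simp)
  refine ⟨ε, h1, fun k => ?_⟩
  rw [pi_norm_le_iff_of_nonneg (by positivity)] at h2
  have h3 := h2 k
  rw [Finset.sum_apply, Real.norm_eq_abs] at h3
  simp only [sub_zero, Pi.smul_apply, smul_eq_mul] at h3
  linarith

/-- A vector whose functionals are bounded by the support function of a zonotope is in the zonotope. -/
theorem mem_zono {d N : ℕ} (b : Fin N → Fin d → ℝ) (p : Fin d → ℝ) (c : ℝ) (hc : 0 ≤ c)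
    (h : ∀ x : Fin d → ℝ, ∑ i, p i * x i ≤ c * ∑ k, |∑ i, b k i * x i|) :
    ∃ t : Fin N → ℝ, (∀ k, t k ∈ Set.Icc (-1 : ℝ) 1) ∧ p = c • ∑ k, t k • b k := by
  classical
  set g : (Fin N → ℝ) →ₗ[ℝ] (Fin d → ℝ) :=
    { toFun := fun t => c • ∑ k, t k • b k
      map_add' := fun s t => by
        simp only [Pi.add_apply, add_smul, Finset.sum_add_distrib, smul_add]
      map_smul' := fun r t => by
        simp only [Pi.smul_apply, smul_eq_mul, mul_smul, RingHom.id_apply, ← Finset.smul_sum]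
        rw [smul_comm] } with hg
  set Q : Set (Fin N → ℝ) := Set.Icc (fun _ => (-1 : ℝ)) (fun _ => 1) with hQ
  have hQc : IsCompact Q := isCompact_Icc
  have hQv : Convex ℝ Q := convex_Icc _ _
  have hKc : IsCompact (g '' Q) := hQc.image (LinearMap.continuous_of_finiteDimensional g)
  have hKv : Convex ℝ (g '' Q) := hQv.linear_image g
  by_contra hcon
  have hp : p ∉ g '' Q := by
    rintro ⟨t, ht, hpt⟩
    apply hcon
    exact ⟨t, fun k => ⟨ht.1 k, ht.2 k⟩, hpt.symm⟩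
  obtain ⟨f, r, hf1, hf2⟩ := geometric_hahn_banach_closed_point hKv hKc.isClosed hp
  set x : Fin d → ℝ := fun i => f (Pi.single i 1) with hx
  have hfe : ∀ a : Fin d → ℝ, f a = ∑ i, a i * x i := by
    intro a
    have : a = ∑ i, a i • (Pi.single i 1 : Fin d → ℝ) := by
      ext j
      rw [Finset.sum_apply]
      simp [Pi.single_apply]
    conv_lhs => rw [this]
    rw [map_sum]
    refine Finset.sum_congr rfl fun i _ => ?_
    rw [map_smul, smul_eq_mul]
  set t : Fin N → ℝ := fun k => if 0 ≤ ∑ i, b k i * x i then 1 else -1 with ht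
  have htQ : t ∈ Q := by
    rw [hQ, Set.mem_Icc]
    constructor <;> intro k <;> simp only [ht] <;> split_ifs <;> norm_num
  have h1 := hf1 (g t) ⟨t, htQ, rfl⟩
  have h2 : f (g t) = c * ∑ k, |∑ i, b k i * x i| := by
    have e : g t = c • ∑ k, t k • b k := rfl
    rw [e, map_smul, map_sum, smul_eq_mul]
    congr 1
    refine Finset.sum_congr rfl fun k _ => ?_
    rw [map_smul, smul_eq_mul, hfe (b k)]
    simp only [ht]
    split_ifs with h0
    · rw [abs_of_nonneg h0, one_mul]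
    · rw [abs_of_neg (not_le.1 h0)]; ring
  have h3 := h x
  rw [← hfe p] at h3
  linarith

theorem sum_swap {d m : ℕ} (v : Fin m → Fin d → ℝ) (t : Fin m → ℝ) (x : Fin d → ℝ)
    (ht : ∀ j, t j ∈ Set.Icc (-1 : ℝ) 1) :
    ∑ i, (∑ j, t j • v j) i * x i ≤ ∑ j, |∑ i, v j i * x i| := by
  have e : ∑ i, (∑ j, t j • v j) i * x i = ∑ j, t j * ∑ i, v j i * x i := by
    simp only [Finset.sum_apply, Pi.smul_apply, smul_eq_mul, Finset.sum_mul, Finset.mul_sum]
    rw [Finset.sum_comm]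
    refine Finset.sum_congr rfl fun j _ => Finset.sum_congr rfl fun i _ => by ring
  rw [e]
  refine Finset.sum_le_sum fun j _ => ?_
  calc t j * ∑ i, v j i * x i ≤ |t j * ∑ i, v j i * x i| := le_abs_self _
    _ = |t j| * |∑ i, v j i * x i| := abs_mul _ _
    _ ≤ 1 * |∑ i, v j i * x i| :=
        mul_le_mul_of_nonneg_right (abs_le.2 ⟨(ht j).1, (ht j).2⟩) (abs_nonneg _)
    _ = _ := one_mul _

theorem main :
    ∃ C : ℝ, 0 < C ∧
      ∀ (d m : ℕ) (v : Fin m → (Fin d → ℝ)) (n : ℕ) (u : Fin n → (Fin d → ℝ)),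
        (∀ i, ∃ t : Fin m → ℝ, (∀ j, t j ∈ Set.Icc (-1 : ℝ) 1) ∧
            u i = ∑ j, t j • v j) →
        ∃ ε : Fin n → ℝ, (∀ i, ε i = 1 ∨ ε i = -1) ∧
          ∃ s : Fin m → ℝ, (∀ j, s j ∈ Set.Icc (-1 : ℝ) 1) ∧
            ∑ i, ε i • u i = (C * Real.sqrt d) • ∑ j, s j • v j := by
  classical
  obtain ⟨C0, hC0, hz⟩ := Pool.Agent.W555.ZL.vec Q189.ZonMain.iter
  set C : ℝ := 74880 * √C0 with hC
  have hCpos : 0 < C := by positivity
  refine ⟨C, hCpos, fun d m v n u hu => ?_⟩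
  obtain ⟨N, w, hN, hw⟩ := hz d m (fun j => WithLp.toLp 2 (v j)) (1 / 2) (by norm_num) le_rfl
  set b : Fin N → Fin d → ℝ := fun k => (w k).ofLp with hb
  have key : ∀ a x : Fin d → ℝ,
      (inner ℝ (WithLp.toLp 2 a) (WithLp.toLp 2 x : EuclideanSpace ℝ (Fin d)) : ℝ) =
        ∑ i, a i * x i := by
    intro a x
    rw [PiLp.inner_apply]
    simp [mul_comm]
  have hlow : ∀ x : Fin d → ℝ, ∑ k, |∑ i, b k i * x i| ≤ ∑ j, |∑ i, v j i * x i| := by
    intro x
    have h := (hw (WithLp.toLp 2 x)).1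
    have e1 : ∀ k, (inner ℝ (w k) (WithLp.toLp 2 x : EuclideanSpace ℝ (Fin d)) : ℝ) =
        ∑ i, b k i * x i := fun k => key (b k) x
    simp only [e1, key] at h
    exact h
  have hup : ∀ x : Fin d → ℝ, ∑ j, |∑ i, v j i * x i| ≤ (3 / 2) * ∑ k, |∑ i, b k i * x i| := by
    intro x
    have h := (hw (WithLp.toLp 2 x)).2
    have e1 : ∀ k, (inner ℝ (w k) (WithLp.toLp 2 x : EuclideanSpace ℝ (Fin d)) : ℝ) =
        ∑ i, b k i * x i := fun k => key (b k) x
    simp only [e1, key] at h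
    have e2 : (1 + 1 / 2 : ℝ) = 3 / 2 := by norm_num
    rw [e2] at h
    exact h
  -- the vectors in the coordinates of the small zonotope
  have hy : ∀ i, ∃ y : Fin N → ℝ, (∀ k, y k ∈ Set.Icc (-1 : ℝ) 1) ∧
      u i = (3 / 2 : ℝ) • ∑ k, y k • b k := by
    intro i
    obtain ⟨t, ht, hut⟩ := hu i
    apply mem_zono b (u i) (3 / 2) (by norm_num)
    intro x
    rw [hut]
    exact (sum_swap v t x ht).trans (hup x)
  choose y hy1 hy2 using hy
  obtain ⟨ε, hε1, hε2⟩ := spencer N n y (fun i k => abs_le.2 ⟨(hy1 i k).1, (hy1 i k).2⟩)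
  refine ⟨ε, hε1, ?_⟩
  -- the signed sum
  set z : Fin N → ℝ := fun k => ∑ i, ε i * y i k with hzdef
  have hsum : ∑ i, ε i • u i = (3 / 2 : ℝ) • ∑ k, z k • b k := by
    have e : ∀ i, ε i • u i = (3 / 2 : ℝ) • ∑ k, (ε i * y i k) • b k := by
      intro i
      rw [hy2 i, smul_comm, Finset.smul_sum]
      simp only [smul_smul]
    simp only [e]
    rw [← Finset.smul_sum, Finset.sum_comm]
    congr 1
    refine Finset.sum_congr rfl fun k _ => ?_
    rw [hzdef, Finset.sum_smul]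
  rcases Nat.eq_zero_or_pos d with hd | hd
  · subst hd
    exact ⟨fun _ => 0, fun _ => by norm_num, Subsingleton.elim _ _⟩
  have hd0 : (0 : ℝ) < d := by exact_mod_cast hd
  have hsd : 0 < √(d : ℝ) := Real.sqrt_pos.2 hd0
  have hCd : 0 < C * √(d : ℝ) := by positivity
  have hNd : √(N : ℝ) ≤ 2 * (√C0 * √(d : ℝ)) := by
    rw [← Real.sqrt_mul hC0.le]
    have h4 : (2 : ℝ) = √4 := by
      rw [show (4 : ℝ) = 2 ^ 2 by norm_num, Real.sqrt_sq (by norm_num)]
    rw [h4, ← Real.sqrt_mul (by norm_num)]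
    apply Real.sqrt_le_sqrt
    have h5 : C0 * (d : ℝ) / (1 / 2) ^ 2 = 4 * (C0 * d) := by ring
    rw [h5] at hN
    exact hN
  have hmem : ∃ s : Fin m → ℝ, (∀ j, s j ∈ Set.Icc (-1 : ℝ) 1) ∧
      ∑ i, ε i • u i = (C * Real.sqrt d) • ∑ j, s j • v j := by
    apply mem_zono v _ _ hCd.le
    intro x
    rw [hsum]
    have e : ∑ i, ((3 / 2 : ℝ) • ∑ k, z k • b k) i * x i =
        (3 / 2) * ∑ k, z k * ∑ i, b k i * x i := by
      simp only [Finset.sum_apply, Pi.smul_apply, smul_eq_mul, Finset.mul_sum, Finset.sum_mul]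
      rw [Finset.sum_comm]
      refine Finset.sum_congr rfl fun j _ => Finset.sum_congr rfl fun i _ => by ring
    rw [e]
    have h6 : ∑ k, z k * ∑ i, b k i * x i ≤ 24960 * √(N : ℝ) * ∑ k, |∑ i, b k i * x i| := by
      rw [Finset.mul_sum]
      refine Finset.sum_le_sum fun k _ => ?_
      calc z k * ∑ i, b k i * x i ≤ |z k * ∑ i, b k i * x i| := le_abs_self _
        _ = |z k| * |∑ i, b k i * x i| := abs_mul _ _
        _ ≤ _ := mul_le_mul_of_nonneg_right (hε2 k) (abs_nonneg _)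
    have h7 : 0 ≤ ∑ k, |∑ i, b k i * x i| := Finset.sum_nonneg fun _ _ => abs_nonneg _
    have h8 : 0 ≤ ∑ j, |∑ i, v j i * x i| := Finset.sum_nonneg fun _ _ => abs_nonneg _
    calc (3 / 2) * ∑ k, z k * ∑ i, b k i * x i
        ≤ (3 / 2) * (24960 * √(N : ℝ) * ∑ k, |∑ i, b k i * x i|) := by linarith
      _ ≤ (3 / 2) * (24960 * (2 * (√C0 * √(d : ℝ))) * ∑ k, |∑ i, b k i * x i|) := by
          gcongr
      _ = (C * √(d : ℝ)) * ∑ k, |∑ i, b k i * x i| := by rw [hC]; ring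
      _ ≤ (C * √(d : ℝ)) * ∑ j, |∑ i, v j i * x i| := by
          gcongr
          exact hlow x
  exact hmem

end Pool.Agent.K9h76.ZB
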